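import Pool.Agent.Run7.h188.FW.Stm

set_option autoImplicit false

namespace Run7.h332.FW

open Finset Pool.Agent.H283R2.DR Pool.Agent.H789R5 Pool.Agent.Run7.h188.FW

theorem t_EXT : S_EXT := by
  intro d n e he hn hG
  obtain ⟨p, hp⟩ := exists_mg (Fin (n + 1)) d
  have hgen : Gen p := hp.toGen
  have hpos : ∀ k, 0 < e (k + 1) := by
    intro k
    have h1 : e 0 < e (k + 1) := he.mono (Nat.succ_pos k)
    rw [he.e0] at h1
    exact h1
  have hle : ∀ k, k < d + 1 → e (k + 1) ≤ n := by
    intro k hk
    have h1 : e (k + 1) ≤ e (d + 1) := he.mono.monotone (by omega)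
    omega
  have hU : RigidOn (dG (n + 1) d e) {v : Fin (n + 1) | (v : ℕ) < n} p := by
    obtain ⟨p', hp'⟩ := hG
    refine hgen.rigid (dG (n + 1) d e) _ (fun v => if h : (v : ℕ) < n then p' ⟨v, h⟩ else 0) ?_
    intro q hq
    obtain ⟨A, b, hA, hb⟩ := hp' (fun x => q x.castSucc) (by
      intro u v huv
      have h1 := hq u.castSucc (by simp) v.castSucc (by simp) (by
        obtain ⟨k, h2, h3, h4⟩ := huv
        exact ⟨k, h2, h3, by simpa using h4⟩)
      simpa using h1)
    refine ⟨A, b, hA, ?_⟩
    intro v hv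
    have hv' : (v : ℕ) < n := hv
    have h1 := hb ⟨v, hv'⟩
    have h2 : (⟨v, hv'⟩ : Fin n).castSucc = v := by ext; rfl
    rw [h2] at h1
    simpa [hv'] using h1
  classical
  have hinj : Set.InjOn (fun k : ℕ => n - e (k + 1)) (range (d + 1) : Finset ℕ) := by
    intro k hk l hl hkl
    have h1 := hle k (mem_range.1 hk)
    have h2 := hle l (mem_range.1 hl)
    have h3 : e (k + 1) = e (l + 1) := by
      have h4 : n - e (k + 1) = n - e (l + 1) := hkl
      omega
    have h5 := he.mono.injective h3
    omega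
  let f : ℕ → Fin (n + 1) := fun k => ⟨n - e (k + 1), by omega⟩
  have hf : Set.InjOn f (range (d + 1) : Finset ℕ) := by
    intro k hk l hl hkl
    exact hinj hk hl (congrArg Fin.val hkl)
  have hext := IL.extend hgen (dG (n + 1) d e) _ hU (Fin.last n) ((range (d + 1)).image f) (by
      rw [card_image_of_injOn hf]; simp) (by
      intro u hu
      obtain ⟨k, hk, rfl⟩ := mem_image.1 hu
      have h1 := hle k (mem_range.1 hk)
      have h2 := hpos k
      show n - e (k + 1) < n
      omega) (by
      intro u hu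
      obtain ⟨k, hk, rfl⟩ := mem_image.1 hu
      have h1 := hle k (mem_range.1 hk)
      refine ⟨k, mem_range.1 hk, hpos k, Or.inr ?_⟩
      show n - e (k + 1) + e (k + 1) = n
      omega)
  have huniv : insert (Fin.last n) {v : Fin (n + 1) | (v : ℕ) < n} = Set.univ := by
    ext v
    simp only [Set.mem_insert_iff, Set.mem_setOf_eq, Set.mem_univ, iff_true]
    rcases Nat.lt_or_ge (v : ℕ) n with h | h
    · exact Or.inr h
    · left
      ext
      have := v.2
      show (v : ℕ) = n
      omega
  rw [huniv] at hext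
  exact ⟨p, (rigidOn_univ_iff _ p).1 hext⟩

end Run7.h332.FW
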